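import Mathlib

namespace Pool.Agent.Results.MP_07bc1a_al.NotACCP

/-- The principal two-sided ideal `H a H`. -/
def twoI {H : Type} [Monoid H] (a : H) : Set H := {y | ∃ h k, y = h * a * k}

/-- `u x v ≠ x` whenever `u` or `v` is not a unit. -/
def Acyclic (H : Type) [Monoid H] : Prop :=
  ∀ u v x : H, (¬ IsUnit u ∨ ¬ IsUnit v) → u * x * v ≠ x

@[ext] structure A where
  c : ℕ
  D : ℤ
  f : ℕ
  l : ℕ

instance : Mul A := ⟨fun x y => ⟨x.c + y.c, x.D + y.D, if x.c = 0 then x.f + y.f else x.f,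
  if y.c = 0 then x.l + y.l else y.l⟩⟩
instance : One A := ⟨⟨0, 0, 0, 0⟩⟩
@[simp] lemma mul_c (x y : A) : (x * y).c = x.c + y.c := rfl
@[simp] lemma mul_D (x y : A) : (x * y).D = x.D + y.D := rfl
@[simp] lemma mul_f (x y : A) : (x * y).f = if x.c = 0 then x.f + y.f else x.f := rfl
@[simp] lemma mul_l (x y : A) : (x * y).l = if y.c = 0 then x.l + y.l else y.l := rfl
@[simp] lemma one_c : (1 : A).c = 0 := rfl
@[simp] lemma one_D : (1 : A).D = 0 := rfl
@[simp] lemma one_f : (1 : A).f = 0 := rfl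
@[simp] lemma one_l : (1 : A).l = 0 := rfl

instance : Monoid A where
  mul_assoc x y z := by
    ext <;> simp only [mul_c, mul_D, mul_f, mul_l] <;> (try split_ifs) <;> omega
  one_mul x := by ext <;> simp
  mul_one x := by ext <;> simp

def a : A := ⟨0, 1, 1, 1⟩
def b : A := ⟨0, -1, 0, 0⟩
def t : A := ⟨1, 0, 0, 0⟩

def S : Submonoid A := Submonoid.closure {a, b, t}

lemma inv (x : S) : x.1.c = 0 → x.1.f = x.1.l ∧ x.1.D ≤ x.1.f := by
  obtain ⟨x, hx⟩ := x
  induction hx using Submonoid.closure_induction with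
  | mem x hx => rcases hx with rfl | rfl | rfl <;> simp [a, b, t]
  | one => simp
  | mul x y _ _ h1 h2 =>
    simp only [mul_c, mul_D, mul_f, mul_l] at h1 h2 ⊢
    intro h
    rw [if_pos (by omega), if_pos (by omega)]
    omega

lemma key (u v x y : S) (h : u * x * v = y) (hc : y.1.c = x.1.c) (hf : y.1.f = x.1.f)
    (hl : y.1.l = x.1.l) : u.1.c = 0 ∧ v.1.c = 0 ∧ u.1.f = 0 ∧ v.1.l = 0 ∧
      y.1.D = u.1.D + x.1.D + v.1.D := by
  have e : u.1 * x.1 * v.1 = y.1 := congrArg Subtype.val h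
  have e1 := congrArg A.c e
  have e2 := congrArg A.D e
  have e3 := congrArg A.f e
  have e4 := congrArg A.l e
  simp only [mul_c, mul_D, mul_f, mul_l] at e1 e2 e3 e4
  split_ifs at e3 e4 <;> omega

lemma apow (k : ℕ) : a ^ k = ⟨0, k, k, k⟩ := by
  induction k with
  | zero => rfl
  | succ k ih => rw [pow_succ, ih]; ext <;> simp [a]

def sa : S := ⟨a, Submonoid.subset_closure (by simp)⟩
def sb : S := ⟨b, Submonoid.subset_closure (by simp)⟩
def st : S := ⟨t, Submonoid.subset_closure (by simp)⟩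

lemma xval (k : ℕ) : (st * sa ^ k * st).1 = ⟨2, k, 0, 0⟩ := by
  change t * a ^ k * t = _
  rw [apow]; ext <;> simp [t]

theorem result : ∃ (H : Type) (_ : Monoid H), Monoid.FG H ∧ Acyclic H ∧
    ∃ x : ℕ → H, ∀ k, twoI (x k) ⊂ twoI (x (k + 1)) := by
  refine ⟨S, inferInstance, ?_, fun u v x h e => ?_, fun k => st * sa ^ k * st,
    fun k => ⟨?_, fun h => ?_⟩⟩
  · exact (Monoid.fg_iff_submonoid_fg S).2 (Submonoid.fg_iff _ |>.2 ⟨_, rfl, Set.toFinite _⟩)
  · have k := key u v x x e rfl rfl rfl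
    have i1 := inv u k.1
    have i2 := inv v k.2.1
    have hu : u = 1 := Subtype.ext (by ext <;> simp <;> omega)
    have hv : v = 1 := Subtype.ext (by ext <;> simp <;> omega)
    simp [hu, hv] at h
  · rintro _ ⟨p, q, rfl⟩
    refine ⟨p, sb * q, ?_⟩
    have : st * sa ^ k * st = st * sa ^ (k + 1) * st * sb := by
      apply Subtype.ext
      rw [Submonoid.coe_mul S (st * sa ^ (k + 1) * st), xval, xval]
      ext <;> simp [sb, b]
    beta_reduce
    rw [this]; simp only [mul_assoc]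
  · obtain ⟨p, q, e⟩ := h (show st * sa ^ (k + 1) * st ∈ twoI _ from ⟨1, 1, by simp⟩)
    have kk := key p q _ _ e.symm (by simp only [xval]) (by simp only [xval]) (by simp only [xval])
    have i1 := inv p kk.1
    have i2 := inv q kk.2.1
    simp only [xval] at kk
    omega

end Pool.Agent.Results.MP_07bc1a_al.NotACCP
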